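import Pool.Agent.H503R3.FR.Stmts

set_option autoImplicit false

open IsLocalRing MvPolynomial

namespace H503R3.FR.V980

/-- a symmetric double sum with zero diagonal vanishes in characteristic 2 -/
theorem double_sum {A : Type} [CommRing A] [CharP A 2] {n : ℕ} (f : Fin n → Fin n → A)
    (h0 : ∀ l, f l l = 0) (hs : ∀ l m, f l m = f m l) : ∑ l, ∑ m, f l m = 0 := by
  classical
  rw [← Fintype.sum_prod_type' (f := f)]
  refine Finset.sum_involution (fun p _ => (p.2, p.1)) ?_ ?_ ?_ ?_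
  · rintro ⟨l, m⟩ _
    show f l m + f m l = 0
    rw [hs m l]
    exact CharTwo.add_self_eq_zero _
  · rintro ⟨l, m⟩ _ h hc
    apply h
    have h1 : m = l := congrArg Prod.fst hc
    show f l m = 0
    rw [h1]
    exact h0 l
  · intros; simp
  · intros; simp

theorem odd_split {k : Type} [Field k] (f : D k) (hf : IsOd f) :
    ∃ a b : D k, f = X 1 * a + X 2 * b := by
  have h : f ∈ Ideal.span ((X : Fin 3 → D k) '' {1, 2}) := by
    rw [mem_ideal_span_X_image]
    intro m hm
    have h1 := hf m hm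
    by_contra hc
    push Not at hc
    have h2 : m 1 = 0 := hc 1 (by simp)
    have h3 : m 2 = 0 := hc 2 (by simp)
    rw [h2, h3] at h1
    simp at h1
  rw [Set.image_pair, Ideal.mem_span_pair] at h
  obtain ⟨a, b, hab⟩ := h
  exact ⟨a, b, by rw [← hab]; ring⟩

theorem isOd_X1 (k : Type) [Field k] : IsOd (X 1 : D k) := by
  intro m hm
  rw [support_X, Finset.mem_singleton] at hm
  subst hm
  simp

theorem isOd_X2 (k : Type) [Field k] : IsOd (X 2 : D k) := by
  intro m hm
  rw [support_X, Finset.mem_singleton] at hm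
  subst hm
  simp

theorem mp_mul {k : Type} [Field k] (pd : ParityData k) (P : Ideal (R k)) [P.IsPrime] {a b : D k}
    (ha : a ∈ MP P) (hb : b ∈ MP P) : a * b ∈ MP P := by
  obtain ⟨ha1, ha2, ha3⟩ := ha
  obtain ⟨hb1, hb2, hb3⟩ := hb
  refine ⟨?_, ?_⟩
  · have h := pd.ev (a * b)
    rwa [pd.ev_mul0 a b ha1, pd.p0_ev b hb1] at h
  · have h1 : E k (a * b) ∈ R k := by
      rw [map_mul]
      exact (R k).mul_mem ha2 hb2
    refine ⟨h1, ?_⟩
    intro hc
    have h2 : (⟨E k (a * b), h1⟩ : R k) = ⟨E k a, ha2⟩ * ⟨E k b, hb2⟩ := by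
      apply Subtype.ext
      show E k (a * b) = E k a * E k b
      rw [map_mul]
    rw [h2] at hc
    rcases Ideal.IsPrime.mem_or_mem inferInstance hc with h | h
    · exact ha3 h
    · exact hb3 h

theorem mem_span_range {A : Type} [CommRing A] {n : ℕ} (y : Fin n → A) (z : A) :
    z ∈ Ideal.span (Set.range y) ↔ ∃ c : Fin n → A, z = ∑ l, y l * c l := by
  rw [Ideal.mem_span_range_iff_exists_fun]
  constructor
  · rintro ⟨c, hc⟩
    exact ⟨c, by rw [← hc]; exact Finset.sum_congr rfl fun _ _ => mul_comm _ _⟩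
  · rintro ⟨c, hc⟩
    exact ⟨c, by rw [hc]; exact Finset.sum_congr rfl fun _ _ => mul_comm _ _⟩

theorem taskVertex : TaskVertex := by
  classical
  intro hPar k _ _ P _ n y hy hH b hb v hv h1 h2
  obtain ⟨pd⟩ := hPar k
  have hvE : IsEv v := hv.1
  rw [mem_span_range] at h1 h2
  obtain ⟨U0, hU0⟩ := h1
  obtain ⟨V0, hV0⟩ := h2
  -- even coefficients
  have hUe : v * (X 1 * b) = ∑ l, y l * pd.p0 (U0 l) := by
    have h := congrArg pd.p0 hU0
    rw [pd.ev_mul0 v _ hvE, pd.od_mul0 _ _ (isOd_X1 k), pd.p1_od b hb, map_sum] at h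
    rw [h]
    exact Finset.sum_congr rfl fun l _ => pd.ev_mul0 _ _ (hy l)
  have hVe : v * (X 2 * b) = ∑ l, y l * pd.p0 (V0 l) := by
    have h := congrArg pd.p0 hV0
    rw [pd.ev_mul0 v _ hvE, pd.od_mul0 _ _ (isOd_X2 k), pd.p1_od b hb, map_sum] at h
    rw [h]
    exact Finset.sum_congr rfl fun l _ => pd.ev_mul0 _ _ (hy l)
  obtain ⟨U, hU⟩ : ∃ U : Fin n → D k, U = fun l => pd.p0 (U0 l) := ⟨_, rfl⟩
  obtain ⟨V, hV⟩ : ∃ V : Fin n → D k, V = fun l => pd.p0 (V0 l) := ⟨_, rfl⟩
  have hUev : ∀ l, IsEv (U l) := fun l => by rw [hU]; exact pd.ev _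
  have hVev : ∀ l, IsEv (V l) := fun l => by rw [hV]; exact pd.ev _
  have hUs : v * (X 1 * b) = ∑ l, y l * U l := by rw [hUe, hU]
  have hVs : v * (X 2 * b) = ∑ l, y l * V l := by rw [hVe, hV]
  -- the relation
  have hrel : ∑ l, y l * (X 2 * U l + X 1 * V l) = 0 := by
    have e1 : ∑ l, y l * (X 2 * U l + X 1 * V l)
        = X 2 * ∑ l, y l * U l + X 1 * ∑ l, y l * V l := by
      rw [Finset.mul_sum, Finset.mul_sum, ← Finset.sum_add_distrib]
      exact Finset.sum_congr rfl fun l _ => by ring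
    rw [e1, ← hUs, ← hVs]
    have e2 : (X 2 * (v * (X 1 * b)) + X 1 * (v * (X 2 * b)) : D k)
      = X 2 * (v * (X 1 * b)) + X 2 * (v * (X 1 * b)) := by ring
    rw [e2]
    exact CharTwo.add_self_eq_zero _
  obtain ⟨v2, hv2, t0, ht0, hts, htc⟩ := hH _ hrel
  -- odd part
  have htc1 : ∀ l, v2 * (X 2 * U l + X 1 * V l) = ∑ m, y m * pd.p1 (t0 l m) := by
    intro l
    have h := congrArg pd.p1 (htc l)
    have e3 : pd.p1 (X 2 * U l + X 1 * V l) = X 2 * U l + X 1 * V l := by
      rw [map_add, pd.od_mul1 _ _ (isOd_X2 k), pd.od_mul1 _ _ (isOd_X1 k),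
        pd.p0_ev _ (hUev l), pd.p0_ev _ (hVev l)]
    rw [pd.ev_mul1 _ _ hv2.1, e3, map_sum] at h
    rw [h]
    exact Finset.sum_congr rfl fun m _ => pd.ev_mul1 _ _ (hy m)
  have hsp : ∀ l m, ∃ a b' : D k, pd.p1 (t0 l m) = X 1 * a + X 2 * b' :=
    fun l m => odd_split _ (pd.od _)
  choose al be hab using hsp
  -- symmetrise
  obtain ⟨al', hal'⟩ : ∃ al' : Fin n → Fin n → D k,
      al' = fun l m => if l < m then al l m else if m < l then al m l else 0 := ⟨_, rfl⟩
  obtain ⟨be', hbe'⟩ : ∃ be' : Fin n → Fin n → D k,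
      be' = fun l m => if l < m then be l m else if m < l then be m l else 0 := ⟨_, rfl⟩
  have hbe0 : ∀ l, be' l l = 0 := fun l => by rw [hbe']; simp
  have hbes : ∀ l m, be' l m = be' m l := by
    intro l m
    rw [hbe']
    rcases lt_trichotomy l m with h | h | h
    · simp [h, not_lt_of_gt h]
    · simp [h]
    · simp [h, not_lt_of_gt h]
  have hsplit : ∀ l m, pd.p1 (t0 l m) = X 1 * al' l m + X 2 * be' l m := by
    intro l m
    rw [hal', hbe']
    rcases lt_trichotomy l m with h | h | h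
    · simp only [h, if_true]
      exact hab l m
    · subst h
      simp [ht0 l]
    · simp only [h, not_lt_of_gt h, if_true, if_false]
      rw [hts l m]
      exact hab m l
  have hdiv : ∀ l, ∃ u : D k, v2 * U l - ∑ m, y m * be' l m = X 1 * u := by
    intro l
    have e4 : X 2 * (v2 * U l - ∑ m, y m * be' l m)
        = X 1 * (∑ m, y m * al' l m - v2 * V l) := by
      have e5 := htc1 l
      have e6 : ∑ m, y m * pd.p1 (t0 l m)
          = X 1 * ∑ m, y m * al' l m + X 2 * ∑ m, y m * be' l m := by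
        rw [Finset.mul_sum, Finset.mul_sum, ← Finset.sum_add_distrib]
        exact Finset.sum_congr rfl fun m _ => by rw [hsplit l m]; ring
      rw [e6] at e5
      linear_combination e5
    have hp : Prime (X 1 : D k) := X_prime
    have hd : (X 1 : D k) ∣ X 2 * (v2 * U l - ∑ m, y m * be' l m) := ⟨_, e4⟩
    rcases hp.dvd_or_dvd hd with h | h
    · exfalso
      rw [X_dvd_X] at h
      exact absurd h (by decide)
    · exact h
  choose u hu using hdiv
  refine ⟨v2 * v, mp_mul pd P hv2 hv, ?_⟩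
  rw [mem_span_range]
  refine ⟨u, ?_⟩
  have hX : (X 1 : D k) ≠ 0 := X_prime.ne_zero
  apply mul_left_cancel₀ hX
  have e7 : X 1 * (v2 * v * b) = v2 * (v * (X 1 * b)) := by ring
  rw [e7, hUs, Finset.mul_sum, Finset.mul_sum]
  have e8 : ∀ l, v2 * (y l * U l) = X 1 * (y l * u l) + ∑ m, y l * y m * be' l m := by
    intro l
    have e9 := hu l
    have e10 : ∑ m, y l * y m * be' l m = y l * ∑ m, y m * be' l m := by
      rw [Finset.mul_sum]
      exact Finset.sum_congr rfl fun m _ => by ring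
    rw [e10]
    linear_combination y l * e9
  rw [Finset.sum_congr rfl fun l _ => e8 l, Finset.sum_add_distrib,
    double_sum (fun l m => y l * y m * be' l m) (fun l => by rw [hbe0 l, mul_zero])
      (fun l m => by rw [hbes l m]; ring), add_zero]

end H503R3.FR.V980
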